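import Pool.Agent.W5h42.KE.Rot

set_option autoImplicit false

/-! Trajectories with bounded vorticity, all dimensions. -/

open MeasureTheory Set

namespace Pool.Agent.W5h42.KE

variable {n : ℕ}

/-- the norm of the rotation tensor is a bound for its block -/
theorem LambTraj.norm_block {γ : (Fin n → ℝ) → ℝ} {δ h T : ℝ} {u : ST n → Z n}
    {W : ST n → Z n →L[ℝ] Z n} {k : ST n → ℝ} {u0 uT : Z n → Z n}
    (L : LambTraj n γ δ h T u W k u0 uT) :
    LambTraj n γ δ h T u W (fun p => ‖W p‖) u0 uT where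
  rot := L.rot
  int_ku := L.rot.int_Wu
  block := by
    refine Filter.Eventually.of_forall fun p _ v => ?_
    have h1 : ‖((v, 0) : Z n)‖ = ‖v‖ := by
      rw [Prod.norm_def]
      simp
    calc ‖(W p (v, 0)).1‖ ≤ ‖W p (v, 0)‖ := norm_fst_le _
      _ ≤ ‖W p‖ * ‖((v, 0) : Z n)‖ := (W p).le_opNorm _
      _ = ‖W p‖ * ‖v‖ := by rw [h1]
  momentum := L.momentum

/-- bounded vorticity, all dimensions -/
theorem bounded (n : ℕ) : ∃ c : ℝ, 0 < c ∧ ∀ (i : Fin n) {Γ : (Fin n → ℝ) → ℝ}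
    {δ h T a K : ℝ}, Profile Γ → 0 < T → 0 < h → h ≤ δ → 0 < a → 0 ≤ K →
    ∀ {u g : ST n → Z n} {W : ST n → Z n →L[ℝ] Z n} {k : ST n → ℝ} {u0 : Z n → Z n},
    WeakTraj n (wall Γ δ h) δ h T u g u0 0 → LambTraj n (wall Γ δ h) δ h T u W k u0 0 →
    VortGE (wall Γ δ h) δ h i a u0 →
    (∀ᵐ p : ST n, p ∈ dom n T δ (h / 2) h → ‖W p‖ ≤ K) →
    c * (a * h * δ ^ n) ≤ K * ((∫ p in dom n T δ 0 h, ‖g p‖) + T * δ ^ n / h) := by
  obtain ⟨c, hc, h1⟩ := vort n
  refine ⟨c / (3 * 2 ^ n), by positivity, ?_⟩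
  intro i Γ δ h T a K hΓ hT hh hhδ ha hK u g W k u0 H L hv hb
  have hδ : 0 < δ := hh.trans_le hhδ
  have k0 := h1 i hΓ hT hh hhδ ha L.norm_block hv
  have hsub : dom n T δ (h / 2) h ⊆ dom n T δ 0 h := dom_mono (by positivity) le_rfl
  have hms : ∀ᵐ p ∂(volume.restrict (dom n T δ (h / 2) h)), p ∈ dom n T δ (h / 2) h :=
    ae_restrict_mem (measurableSet_dom T δ _ _)
  have hbd : ∀ᵐ p ∂(volume.restrict (dom n T δ (h / 2) h)), p ∈ dom n T δ (h / 2) h →
      ‖W p‖ ≤ K := ae_restrict_of_ae hb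
  have ju := L.rot.int_u.mono_set hsub
  have jc : IntegrableOn (fun _ : ST n => 1 / h ^ 2) (dom n T δ (h / 2) h) :=
    integrableOn_const (volume_dom_lt T δ _ _).ne
  have jR : IntegrableOn (fun p => K * (3 * (‖u p‖ / h) + 1 / h ^ 2))
      (dom n T δ (h / 2) h) :=
    ((((ju.div_const h).const_mul 3)).add jc).const_mul K
  have k1 : ∫ p in dom n T δ (h / 2) h, ((‖W p‖ * |(u p).2| + ‖W p‖ * ‖u p‖) / h +
        ‖W p‖ * ‖u p‖ / δ + ‖W p‖ / h ^ 2) ≤
      ∫ p in dom n T δ (h / 2) h, K * (3 * (‖u p‖ / h) + 1 / h ^ 2) := by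
    apply integral_mono_of_nonneg _ jR
    · filter_upwards [hms, hbd] with p hp1 hp2
      have hp3 := hp2 hp1
      have e0 : |(u p).2| ≤ ‖u p‖ := norm_snd_le (u p)
      have e1 : K * (3 * (‖u p‖ / h) + 1 / h ^ 2) =
          (K * ‖u p‖ + K * ‖u p‖) / h + K * ‖u p‖ / h + K / h ^ 2 := by ring
      rw [e1]
      gcongr
    · refine Filter.Eventually.of_forall fun p => ?_
      simp only [Pi.zero_apply]
      positivity
  have k2 : ∫ p in dom n T δ (h / 2) h, K * (3 * (‖u p‖ / h) + 1 / h ^ 2) =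
      K * (3 * ((∫ p in dom n T δ (h / 2) h, ‖u p‖) / h) +
        volume.real (dom n T δ (h / 2) h) * (1 / h ^ 2)) := by
    have j2 := (ju.div_const h).const_mul 3
    have q1 := integral_add j2 jc
    rw [integral_const_mul, q1, integral_const_mul, integral_div, setIntegral_const, smul_eq_mul]
  have k4 : ∫ p in dom n T δ (h / 2) h, ‖u p‖ ≤ h * ∫ p in dom n T δ 0 h, ‖g p‖ := by
    refine le_trans ?_ (hardy_norm H hh)
    exact setIntegral_mono_set L.rot.int_u (Filter.Eventually.of_forall fun p => norm_nonneg _)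
      (Filter.Eventually.of_forall hsub)
  rw [k2, volume_dom hT.le hδ (by linarith)] at k1
  set B := ∫ p in dom n T δ 0 h, ‖g p‖ with hB
  set a2 := ∫ p in dom n T δ (h / 2) h, ‖u p‖ with ha2
  have hB0 : 0 ≤ B := integral_nonneg fun p => norm_nonneg _
  have t2 : a2 / h ≤ B := by
    rw [div_le_iff₀ hh]
    linarith
  have t3 : T * (2 * δ) ^ n * (h - h / 2) * (1 / h ^ 2) = 2 ^ n / 2 * (T * δ ^ n / h) := by
    rw [mul_pow]
    field_simp
    ring
  have e2 : (1 : ℝ) ≤ 2 ^ n := one_le_pow₀ (by norm_num)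
  have hR0 : 0 ≤ T * δ ^ n / h := by positivity
  have k5 : c * (a * h * δ ^ n) ≤ 3 * 2 ^ n * (K * (B + T * δ ^ n / h)) := by
    refine (k0.trans k1).trans ?_
    rw [t3]
    have q1 : 3 * (a2 / h) + 2 ^ n / 2 * (T * δ ^ n / h) ≤
        3 * 2 ^ n * (B + T * δ ^ n / h) := by
      nlinarith [mul_nonneg (sub_nonneg.2 e2) hB0, mul_nonneg (sub_nonneg.2 e2) hR0]
    calc K * (3 * (a2 / h) + 2 ^ n / 2 * (T * δ ^ n / h)) ≤
          K * (3 * 2 ^ n * (B + T * δ ^ n / h)) := by gcongr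
      _ = _ := by ring
  have e8 : c / (3 * 2 ^ n) * (a * h * δ ^ n) = (c * (a * h * δ ^ n)) / (3 * 2 ^ n) := by
    field_simp
  rw [e8, div_le_iff₀ (by positivity)]
  linarith

end Pool.Agent.W5h42.KE
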