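import Pool.Agent.W5h42.KE.Core

set_option autoImplicit false

/-! The test functions adapted to a curved wall, and their bounds. -/

open MeasureTheory Set

namespace Pool.Agent.W5h42.KE

variable {n : ℕ}

/-- the map straightening the wall `y = Γ x` -/
def flat (Γ : (Fin n → ℝ) → ℝ) (z : Z n) : Z n := (z.1, z.2 - Γ z.1)

theorem flat_contDiff {Γ : (Fin n → ℝ) → ℝ} (hΓ : ContDiff ℝ (⊤ : ℕ∞) Γ) :
    ContDiff ℝ (⊤ : ℕ∞) (flat Γ) := by
  unfold flat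
  exact contDiff_fst.prodMk (contDiff_snd.sub (hΓ.comp contDiff_fst))

theorem le_top' (k : ℕ) : (k : WithTop ℕ∞) ≤ ((⊤ : ℕ∞) : WithTop ℕ∞) :=
  WithTop.coe_le_coe.2 le_top

theorem norm_iteratedFDeriv_id {k : ℕ} (hk : 1 ≤ k) (z : Z n) :
    ‖iteratedFDeriv ℝ k (fun z : Z n => z) z‖ ≤ 1 := by
  obtain ⟨m, rfl⟩ : ∃ m, k = m + 1 := ⟨k - 1, by omega⟩
  rw [← norm_iteratedFDeriv_fderiv]
  have h1 : fderiv ℝ (fun z : Z n => z) = fun _ => ContinuousLinearMap.id ℝ (Z n) := by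
    funext w
    exact fderiv_id'
  rw [h1]
  rcases Nat.eq_zero_or_pos m with h0 | h0
  · subst h0
    rw [norm_iteratedFDeriv_zero]
    exact ContinuousLinearMap.norm_id_le
  · rw [iteratedFDeriv_const_of_ne (by omega)]
    simp

theorem flat_bound {Γ : (Fin n → ℝ) → ℝ} (hΓ : Profile Γ) {z : Z n}
    (hz : z.1 ∈ Metric.ball (0 : Fin n → ℝ) 1) {k : ℕ} (hk : 1 ≤ k) (hk3 : k ≤ 3) :
    ‖iteratedFDeriv ℝ k (flat Γ) z‖ ≤ 2 ^ k := by
  have c1 : ContDiff ℝ (⊤ : ℕ∞) (Γ ∘ (ContinuousLinearMap.fst ℝ (Fin n → ℝ) ℝ)) :=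
    hΓ.smooth.comp (ContinuousLinearMap.contDiff _)
  have c2 : ContDiff ℝ (⊤ : ℕ∞) ((ContinuousLinearMap.inr ℝ (Fin n → ℝ) ℝ) ∘
      (Γ ∘ (ContinuousLinearMap.fst ℝ (Fin n → ℝ) ℝ))) :=
    (ContinuousLinearMap.contDiff _).comp c1
  have e1 : flat Γ = (fun z : Z n => z) - ((ContinuousLinearMap.inr ℝ (Fin n → ℝ) ℝ) ∘
      (Γ ∘ (ContinuousLinearMap.fst ℝ (Fin n → ℝ) ℝ))) := by
    funext w
    apply Prod.ext
    · simp [flat]
    · simp [flat]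
  have h1 : ‖iteratedFDeriv ℝ k (Γ ∘ (ContinuousLinearMap.fst ℝ (Fin n → ℝ) ℝ)) z‖ ≤ 1 := by
    rw [ContinuousLinearMap.iteratedFDeriv_comp_right _ hΓ.smooth z (le_top' k)]
    refine (ContinuousMultilinearMap.norm_compContinuousLinearMap_le _ _).trans ?_
    have h2 := hΓ.bound z.1 hz k hk hk3
    have h3 : ∏ _i : Fin k, ‖ContinuousLinearMap.fst ℝ (Fin n → ℝ) ℝ‖ ≤ 1 := by
      apply Finset.prod_le_one
      · intro i _
        exact norm_nonneg _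
      · intro i _
        exact ContinuousLinearMap.norm_fst_le _ _ _
    calc _ ≤ 1 * 1 := mul_le_mul h2 h3 (Finset.prod_nonneg fun i _ => norm_nonneg _) zero_le_one
      _ = 1 := one_mul 1
  have h4 : ‖iteratedFDeriv ℝ k ((ContinuousLinearMap.inr ℝ (Fin n → ℝ) ℝ) ∘
      (Γ ∘ (ContinuousLinearMap.fst ℝ (Fin n → ℝ) ℝ))) z‖ ≤ 1 := by
    refine (ContinuousLinearMap.norm_iteratedFDeriv_comp_left _ c1.contDiffAt
      (le_top' k)).trans ?_
    calc _ ≤ 1 * 1 := mul_le_mul (ContinuousLinearMap.norm_inr_le_one _ _ _) h1 (norm_nonneg _)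
          zero_le_one
      _ = 1 := one_mul 1
  have h5 : iteratedFDeriv ℝ k (flat Γ) z = iteratedFDeriv ℝ k (fun z : Z n => z) z -
      iteratedFDeriv ℝ k ((ContinuousLinearMap.inr ℝ (Fin n → ℝ) ℝ) ∘
      (Γ ∘ (ContinuousLinearMap.fst ℝ (Fin n → ℝ) ℝ))) z := by
    rw [e1]
    exact iteratedFDeriv_sub_apply contDiff_id.contDiffAt
      ((c2.of_le (le_top' k)).contDiffAt)
  rw [h5]
  have h6 : (2 : ℝ) ^ 1 ≤ 2 ^ k := pow_le_pow_right₀ (by norm_num) hk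
  linarith [norm_sub_le (iteratedFDeriv ℝ k (fun z : Z n => z) z)
    (iteratedFDeriv ℝ k ((ContinuousLinearMap.inr ℝ (Fin n → ℝ) ℝ) ∘
      (Γ ∘ (ContinuousLinearMap.fst ℝ (Fin n → ℝ) ℝ))) z), norm_iteratedFDeriv_id hk z]

/-- the centre of the bump function -/
noncomputable def ctr (n : ℕ) : Z n := (0, 3 / 4)

/-- the bump function -/
noncomputable def bump (n : ℕ) : ContDiffBump (ctr n) where
  rIn := 1 / 16
  rOut := 1 / 8
  rIn_pos := by norm_num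
  rIn_lt_rOut := by norm_num

/-- the bump function near the curved wall -/
noncomputable def cb (Γ : (Fin n → ℝ) → ℝ) (z : Z n) : ℝ := bump n (flat Γ z)

theorem cb_contDiff {Γ : (Fin n → ℝ) → ℝ} (hΓ : ContDiff ℝ (⊤ : ℕ∞) Γ) :
    ContDiff ℝ (⊤ : ℕ∞) (cb Γ) := (bump n).contDiff.comp (flat_contDiff hΓ)

theorem mem_of_mem_tsupport {Γ : (Fin n → ℝ) → ℝ} (hΓ : Continuous Γ) {z : Z n}
    (hz : z ∈ tsupport (cb Γ)) : flat Γ z ∈ Metric.closedBall (ctr n) (1 / 8) := by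
  have hc : Continuous (flat Γ) := by
    unfold flat
    fun_prop
  have h1 : tsupport (cb Γ) ⊆ flat Γ ⁻¹' (Metric.closedBall (ctr n) (1 / 8)) := by
    apply closure_minimal _ (Metric.isClosed_closedBall.preimage hc)
    intro w hw
    have h2 : flat Γ w ∈ Function.support (bump n) := hw
    rw [(bump n).support_eq] at h2
    exact Metric.ball_subset_closedBall h2
  exact h1 hz

theorem ctr_fst {z : Z n} (hz : z ∈ Metric.closedBall (ctr n) (1 / 8)) :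
    ‖z.1‖ ≤ 1 / 8 ∧ |z.2 - 3 / 4| ≤ 1 / 8 := by
  rw [Metric.mem_closedBall, Prod.dist_eq, max_le_iff] at hz
  obtain ⟨h1, h2⟩ := hz
  constructor
  · have h3 : dist z.1 (ctr n).1 ≤ 1 / 8 := h1
    rwa [show (ctr n).1 = 0 from rfl, dist_zero_right] at h3
  · have h3 : dist z.2 (ctr n).2 ≤ 1 / 8 := h2
    rwa [show (ctr n).2 = 3 / 4 from rfl, Real.dist_eq] at h3

/-- uniform bounds for the derivatives of orders up to 3 -/
theorem cb_bound (n : ℕ) : ∃ C : ℝ, 1 ≤ C ∧ ∀ Γ : (Fin n → ℝ) → ℝ, Profile Γ →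
    ∀ z : Z n, ∀ k ≤ 3, ‖iteratedFDeriv ℝ k (cb Γ) z‖ ≤ C := by
  have h1 : ∀ k : ℕ, ∃ C : ℝ, ∀ z : Z n, ‖iteratedFDeriv ℝ k (bump n) z‖ ≤ C := by
    intro k
    have c1 : Continuous (iteratedFDeriv ℝ k (bump n : Z n → ℝ)) :=
      ((bump n).contDiff (n := (⊤ : ℕ∞))).continuous_iteratedFDeriv (le_top' k)
    exact c1.bounded_above_of_compact_support ((bump n).hasCompactSupport.iteratedFDeriv k)
  choose C hC using h1
  set M := 1 + |C 0| + |C 1| + |C 2| + |C 3| with hM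
  have hM1 : 1 ≤ M := by
    have := abs_nonneg (C 0)
    have := abs_nonneg (C 1)
    have := abs_nonneg (C 2)
    have := abs_nonneg (C 3)
    linarith
  have hCM : ∀ k ≤ 3, C k ≤ M := by
    intro k hk
    have a0 := abs_nonneg (C 0)
    have a1 := abs_nonneg (C 1)
    have a2 := abs_nonneg (C 2)
    have a3 := abs_nonneg (C 3)
    interval_cases k
    · linarith [le_abs_self (C 0)]
    · linarith [le_abs_self (C 1)]
    · linarith [le_abs_self (C 2)]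
    · linarith [le_abs_self (C 3)]
  refine ⟨48 * M, by linarith, fun Γ hΓ z k hk => ?_⟩
  by_cases hz : z.1 ∈ Metric.ball (0 : Fin n → ℝ) 1
  · have h2 := norm_iteratedFDeriv_comp_le (𝕜 := ℝ) (g := (bump n : Z n → ℝ)) (f := flat Γ)
      (n := k) (N := ((⊤ : ℕ∞) : WithTop ℕ∞)) (bump n).contDiff (flat_contDiff hΓ.smooth)
      (le_top' k) z (C := M) (D := 2)
      (fun i hi => (hC i _).trans (hCM i (hi.trans hk)))
      (fun i hi hik => flat_bound hΓ hz hi (hik.trans hk))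
    have h3 : cb Γ = (bump n : Z n → ℝ) ∘ flat Γ := rfl
    rw [h3]
    refine h2.trans ?_
    have h4 : (k.factorial : ℝ) ≤ 6 := by
      interval_cases k <;> norm_num [Nat.factorial]
    have h5 : (2 : ℝ) ^ k ≤ 8 := by
      interval_cases k <;> norm_num
    calc (k.factorial : ℝ) * M * 2 ^ k ≤ 6 * M * 8 := by gcongr
      _ = 48 * M := by ring
  · have h6 : z ∉ tsupport (cb Γ) := by
      intro hc
      have h7 := (ctr_fst (mem_of_mem_tsupport hΓ.smooth.continuous hc)).1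
      apply hz
      rw [Metric.mem_ball, dist_zero_right]
      have h8 : (flat Γ z).1 = z.1 := rfl
      rw [h8] at h7
      linarith
    have h7 : iteratedFDeriv ℝ k (cb Γ) z = 0 := image_eq_zero_of_notMem_tsupport
      fun hc => h6 (tsupport_iteratedFDeriv_subset k hc)
    rw [h7, norm_zero]
    linarith

/-- directional derivatives and iterated derivatives -/
theorem norm_iter_pd {f : Z n → ℝ} (hf : ContDiff ℝ (⊤ : ℕ∞) f) (w z : Z n) (k : ℕ) :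
    ‖iteratedFDeriv ℝ k (pd w f) z‖ ≤ ‖w‖ * ‖iteratedFDeriv ℝ (k + 1) f z‖ := by
  have h1 : ContDiff ℝ (⊤ : ℕ∞) (fderiv ℝ f) := hf.fderiv_right (by simp)
  rw [← norm_iteratedFDeriv_fderiv]
  exact norm_iteratedFDeriv_clm_apply_const (h1.contDiffAt (x := z)) (le_top' k)

theorem abs_pd1 {f : Z n → ℝ} (hf : ContDiff ℝ (⊤ : ℕ∞) f) {C : ℝ} (z w : Z n)
    (hC : ∀ k ≤ 3, ‖iteratedFDeriv ℝ k f z‖ ≤ C) : |pd w f z| ≤ C * ‖w‖ := by
  have h1 := norm_iter_pd hf w z 0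
  rw [norm_iteratedFDeriv_zero, Real.norm_eq_abs] at h1
  calc |pd w f z| ≤ ‖w‖ * ‖iteratedFDeriv ℝ (0 + 1) f z‖ := h1
    _ ≤ ‖w‖ * C := by
        gcongr
        exact hC _ (by norm_num)
    _ = C * ‖w‖ := mul_comm _ _

theorem abs_pd2 {f : Z n → ℝ} (hf : ContDiff ℝ (⊤ : ℕ∞) f) {C : ℝ} (z v w : Z n)
    (hC : ∀ k ≤ 3, ‖iteratedFDeriv ℝ k f z‖ ≤ C) : |pd v (pd w f) z| ≤ C * (‖v‖ * ‖w‖) := by
  have h1 := norm_iter_pd (contDiff_pd hf w) v z 0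
  have h2 := norm_iter_pd hf w z 1
  rw [norm_iteratedFDeriv_zero, Real.norm_eq_abs] at h1
  calc |pd v (pd w f) z| ≤ ‖v‖ * ‖iteratedFDeriv ℝ (0 + 1) (pd w f) z‖ := h1
    _ ≤ ‖v‖ * (‖w‖ * ‖iteratedFDeriv ℝ (1 + 1) f z‖) := by gcongr
    _ ≤ ‖v‖ * (‖w‖ * C) := by
        gcongr
        exact hC _ (by norm_num)
    _ = C * (‖v‖ * ‖w‖) := by ring

theorem abs_pd3 {f : Z n → ℝ} (hf : ContDiff ℝ (⊤ : ℕ∞) f) {C : ℝ} (z v w a : Z n)
    (hC : ∀ k ≤ 3, ‖iteratedFDeriv ℝ k f z‖ ≤ C) :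
    |pd v (pd w (pd a f)) z| ≤ C * (‖v‖ * ‖w‖ * ‖a‖) := by
  have h1 := norm_iter_pd (contDiff_pd (contDiff_pd hf a) w) v z 0
  have h2 := norm_iter_pd (contDiff_pd hf a) w z 1
  have h3 := norm_iter_pd hf a z 2
  rw [norm_iteratedFDeriv_zero, Real.norm_eq_abs] at h1
  calc |pd v (pd w (pd a f)) z| ≤ ‖v‖ * ‖iteratedFDeriv ℝ (0 + 1) (pd w (pd a f)) z‖ := h1
    _ ≤ ‖v‖ * (‖w‖ * ‖iteratedFDeriv ℝ (1 + 1) (pd a f) z‖) := by gcongr
    _ ≤ ‖v‖ * (‖w‖ * (‖a‖ * ‖iteratedFDeriv ℝ (2 + 1) f z‖)) := by gcongr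
    _ ≤ ‖v‖ * (‖w‖ * (‖a‖ * C)) := by
        gcongr
        exact hC _ (by norm_num)
    _ = C * (‖v‖ * ‖w‖ * ‖a‖) := by ring

end Pool.Agent.W5h42.KE
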