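import Pool.Agent.W5h42.KE.Main
import Pool.Agent.W5h42.KE.RotDefs

set_option autoImplicit false

/-! Trajectories with integrable vorticity. -/

open MeasureTheory Set

namespace Pool.Agent.W5h42.KE

variable {n : ℕ}

theorem dot_ex' (v : Z n) (i : Fin n) : dot v (ex i) = v.1 i := by
  unfold dot ex
  simp only [mul_zero, add_zero]
  rw [sum_single', mul_one]

theorem dot_ey' (v : Z n) : dot v (ey : Z n) = v.2 := by
  unfold dot ey
  simp

theorem dot_rot (i : Fin n) (f : Z n → ℝ) (v z : Z n) :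
    dot v (rot i f z) = dot v (ex i) * pd ey f z - dot v ey * pd (ex i) f z := by
  rw [dot_ex', dot_ey']
  unfold dot rot
  simp only
  rw [sum_single']
  ring

theorem norm_ey_le : ‖(ey : Z n)‖ ≤ 1 := by
  unfold ey
  rw [Prod.norm_def]
  simp

theorem norm_ex_le (i : Fin n) : ‖(ex i : Z n)‖ ≤ 1 := by
  unfold ex
  rw [Prod.norm_def]
  simp [Pi.norm_single]

theorem continuous_dot : Continuous fun q : Z n × Z n => dot q.1 q.2 := by
  unfold dot
  fun_prop

theorem measurable_posLift {γ : (Fin n → ℝ) → ℝ} (hγ : Continuous γ) :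
    Continuous fun p : ST n => lift γ (pos p) := by
  unfold lift pos
  fun_prop

/-- `rot` commutes with the Laplacian -/
theorem lap_rot (i : Fin n) {ψ : Z n → ℝ} (hf : ContDiff ℝ (⊤ : ℕ∞) ψ) (z : Z n) :
    lap (rot i ψ) z = rot i (lap ψ) z := by
  have hd : ∀ a : Z n, Differentiable ℝ (pd a (pd a ψ)) := fun a =>
    (contDiff_pd (contDiff_pd hf a) a).differentiable (by simp)
  have h1 : ∀ a : Z n, pd a (pd a (rot i ψ)) z = rot i (pd a (pd a ψ)) z := by
    intro a
    rw [pd_rot i hf, pd_rot i (contDiff_pd hf a)]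
  have h2 : ∀ w : Z n, pd w (lap ψ) z =
      ∑ j, pd w (pd (ex j) (pd (ex j) ψ)) z + pd w (pd ey (pd ey ψ)) z := by
    intro w
    have h3 : HasFDerivAt (lap ψ) (∑ j : Fin n, fderiv ℝ (pd (ex j) (pd (ex j) ψ)) z +
        fderiv ℝ (pd ey (pd ey ψ)) z) z := by
      apply HasFDerivAt.add
      · exact HasFDerivAt.fun_sum fun j _ => (hd (ex j) z).hasFDerivAt
      · exact (hd ey z).hasFDerivAt
    have h4 : pd w (lap ψ) z = fderiv ℝ (lap ψ) z w := rfl
    rw [h4, h3.fderiv]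
    simp [pd]
  have h5 : lap (rot i ψ) z = ∑ j, rot i (pd (ex j) (pd (ex j) ψ)) z +
      rot i (pd ey (pd ey ψ)) z := by
    have h6 : lap (rot i ψ) z = ∑ j, pd (ex j) (pd (ex j) (rot i ψ)) z +
      pd ey (pd ey (rot i ψ)) z := rfl
    rw [h6, h1, Finset.sum_congr rfl fun j _ => h1 _]
  rw [h5]
  unfold rot
  rw [h2, h2]
  apply Prod.ext
  · simp only [Prod.fst_add, Prod.fst_sum]
    funext j
    by_cases hj : j = i
    · subst hj
      simp
    · simp [Pi.single_eq_of_ne hj]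
  · simp only [Prod.snd_add, Prod.snd_sum]
    simp only [Finset.sum_neg_distrib]
    ring

/-- the inequality -/
theorem vort (n : ℕ) : ∃ c : ℝ, 0 < c ∧ ∀ (i : Fin n) {Γ : (Fin n → ℝ) → ℝ} {δ h T a : ℝ},
    Profile Γ → 0 < T → 0 < h → h ≤ δ → 0 < a → ∀ {u : ST n → Z n} {W : ST n → Z n →L[ℝ] Z n}
    {k : ST n → ℝ} {u0 : Z n → Z n},
    LambTraj n (wall Γ δ h) δ h T u W k u0 0 → VortGE (wall Γ δ h) δ h i a u0 →
    c * (a * h * δ ^ n) ≤ ∫ p in dom n T δ (h / 2) h,
      ((‖W p‖ * |(u p).2| + k p * ‖u p‖) / h + ‖W p‖ * ‖u p‖ / δ + ‖W p‖ / h ^ 2) := by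
  obtain ⟨C, hC1, hC⟩ := sb_bounds n
  have hC0 : 0 < C := lt_of_lt_of_le zero_lt_one hC1
  set c0 : ℝ := (1 / 8) ^ (n + 1) with hc0
  have hc0p : 0 < c0 := by positivity
  set N : ℝ := (n : ℝ) + 1 with hN
  have hN1 : 1 ≤ N := by
    rw [hN]
    have : (0 : ℝ) ≤ n := Nat.cast_nonneg n
    linarith
  have hNp : 0 < N := by positivity
  refine ⟨c0 / (N * C), by positivity, ?_⟩
  intro i Γ δ h T a hΓ hT hh hhδ ha u W k u0 L hv
  have hδ : 0 < δ := hh.trans_le hhδ
  have hψ := sb_test hΓ.smooth hδ hh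
  obtain ⟨hφ, hdiv, _⟩ := isTest_rot i hψ
  set γ := wall Γ δ h with hγ
  have hγc : Continuous γ := by
    rw [hγ]
    unfold wall
    have := hΓ.smooth.continuous
    fun_prop
  have hposc := measurable_posLift hγc
  have hbox : box γ δ (h / 2) h ⊆ box γ δ 0 h := fun z hz =>
    (prod_mono le_rfl (Ioo_subset_Ioo (by positivity) le_rfl) :
      layer n δ (h / 2) h ⊆ layer n δ 0 h) hz
  have hsub : dom n T δ (h / 2) h ⊆ dom n T δ 0 h := dom_mono (by positivity) le_rfl
  obtain ⟨_, p2, p3, p4, p5⟩ := hC Γ hΓ hδ hh hhδ i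
  set ψ := sb Γ hδ hh with hψdef
  have hψ' : IsTest (box γ δ 0 h) ψ := ⟨hψ.smooth, hψ.compact, hψ.supp.trans hbox⟩
  have hφ' : IsTest (box γ δ 0 h) (rot i ψ) := ⟨hφ.smooth, hφ.compact, hφ.supp.trans hbox⟩
  have hlap : IsTest (box γ δ 0 h) (lap ψ) ∧ ∀ z, z ∉ box γ δ (h / 2) h → lap ψ z = 0 := by
    have k0 : ∀ z, z ∉ tsupport ψ → lap ψ z = 0 := by
      intro z hz'
      have k2 : ∀ v : Z n, pd v (pd v ψ) z = 0 := fun v => image_eq_zero_of_notMem_tsupport
        (fun hc => hz' (tsupport_pd ψ v (tsupport_pd (pd v ψ) v hc)))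
      unfold lap
      rw [Finset.sum_eq_zero fun i _ => k2 _, k2, add_zero]
    have k1 : tsupport (lap ψ) ⊆ tsupport ψ := by
      apply closure_minimal _ (isClosed_tsupport ψ)
      intro z hz
      by_contra hc
      exact hz (k0 z hc)
    refine ⟨⟨?_, hψ.compact.of_isClosed_subset (isClosed_tsupport _) k1,
      k1.trans hψ'.supp⟩, fun z hz => k0 z fun hc => hz (hψ.supp hc)⟩
    apply ContDiff.add
    · exact ContDiff.sum fun j _ => contDiff_pd (contDiff_pd hψ.smooth _) _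
    · exact contDiff_pd (contDiff_pd hψ.smooth _) _
  -- the equation
  have hm := L.momentum _ hφ' hdiv
  have h0 : ∫ z in layer n δ 0 h, dot ((0 : Z n → Z n) z) (rot i ψ (lift γ z)) = 0 := by
    have h3 : ∀ z, dot ((0 : Z n → Z n) z) (rot i ψ (lift γ z)) = 0 := fun z => by simp [dot]
    simp only [h3, integral_zero]
  rw [h0, zero_sub] at hm
  -- the two parts
  set f1 : ST n → ℝ := fun p => dot (W p (u p)) (rot i ψ (lift γ (pos p))) with hf1
  set f2 : ST n → ℝ := fun p => dot (u p) (lap (rot i ψ) (lift γ (pos p))) with hf2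
  have hout : ∀ p ∈ dom n T δ 0 h \ dom n T δ (h / 2) h,
      lift γ (pos p) ∉ box γ δ (h / 2) h := by
    rintro p ⟨hp1, hp2⟩ hc
    apply hp2
    have hc2 : ((lift γ (pos p)).1, (lift γ (pos p)).2 - γ (lift γ (pos p)).1) ∈
      layer n δ (h / 2) h := hc
    have e2 : ((lift γ (pos p)).1, (lift γ (pos p)).2 - γ (lift γ (pos p)).1) = pos p := by
      unfold lift
      simp
    rw [e2] at hc2
    exact ⟨⟨hp1.1.1, hc2.1⟩, hc2.2⟩
  have hrot0 : ∀ z, z ∉ box γ δ (h / 2) h → rot i ψ z = 0 := fun z hz =>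
    rot_zero i fun hc => hz (hψ.supp hc)
  have hlr0 : ∀ z, z ∉ box γ δ (h / 2) h → lap (rot i ψ) z = 0 := by
    intro z hz
    have hz' : z ∉ tsupport (rot i ψ) := fun hc => hz (hφ.supp hc)
    have k2 : ∀ v : Z n, pd v (pd v (rot i ψ)) z = 0 := fun v => image_eq_zero_of_notMem_tsupport
      (fun hc => hz' (tsupport_pd _ v (tsupport_pd (pd v (rot i ψ)) v hc)))
    unfold lap
    rw [Finset.sum_eq_zero fun i _ => k2 _, k2, add_zero]
  have e1 : ∫ p in dom n T δ 0 h, (f2 p - f1 p) = ∫ p in dom n T δ (h / 2) h, (f2 p - f1 p) := by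
    apply setIntegral_eq_of_subset_of_forall_sdiff_eq_zero (measurableSet_dom T δ 0 h) hsub
    intro p hp
    simp only [hf1, hf2]
    rw [hrot0 _ (hout p hp), hlr0 _ (hout p hp)]
    simp [dot]
  have e2 : ∫ p in dom n T δ 0 h, f2 p = ∫ p in dom n T δ (h / 2) h, f2 p := by
    apply setIntegral_eq_of_subset_of_forall_sdiff_eq_zero (measurableSet_dom T δ 0 h) hsub
    intro p hp
    simp only [hf2]
    rw [hlr0 _ (hout p hp)]
    simp [dot]
  have hms : ∀ᵐ p ∂(volume.restrict (dom n T δ (h / 2) h)), p ∈ dom n T δ (h / 2) h :=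
    ae_restrict_mem (measurableSet_dom T δ _ _)
  have hbd : ∀ᵐ p ∂(volume.restrict (dom n T δ (h / 2) h)), p ∈ dom n T δ 0 h →
      ∀ v : Fin n → ℝ, ‖(W p (v, 0)).1‖ ≤ k p * ‖v‖ := ae_restrict_of_ae L.block
  have hu : AEStronglyMeasurable u (volume.restrict (dom n T δ (h / 2) h)) :=
    L.rot.meas_u.mono_measure (Measure.restrict_mono hsub le_rfl)
  have hW : AEStronglyMeasurable W (volume.restrict (dom n T δ (h / 2) h)) :=
    L.rot.meas_W.mono_measure (Measure.restrict_mono hsub le_rfl)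
  have ju := L.rot.int_u.mono_set hsub
  have jW := L.rot.int_W.mono_set hsub
  have jWu := L.rot.int_Wu.mono_set hsub
  have jku := L.int_ku.mono_set hsub
  have jW2 : IntegrableOn (fun p => ‖W p‖ * |(u p).2|) (dom n T δ (h / 2) h) := by
    refine Integrable.mono' jWu
      (hW.norm.mul ((continuous_snd.comp_aestronglyMeasurable hu).norm))
      (Filter.Eventually.of_forall fun p => ?_)
    rw [Real.norm_eq_abs, abs_mul, abs_abs, abs_of_nonneg (norm_nonneg _)]
    exact mul_le_mul_of_nonneg_left (norm_snd_le (u p)) (norm_nonneg _)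
  -- pointwise bounds
  have b1 : ∀ᵐ p ∂(volume.restrict (dom n T δ (h / 2) h)),
      ‖f1 p‖ ≤ N * C * ((‖W p‖ * |(u p).2| + k p * ‖u p‖) / h + ‖W p‖ * ‖u p‖ / δ) := by
    filter_upwards [hms, hbd] with p hp1 hp2
    have hp3 := hp2 (hsub hp1)
    have hk0 : 0 ≤ k p := by
      have h1 := hp3 (Pi.single i 1)
      have h2 : ‖(Pi.single i (1 : ℝ) : Fin n → ℝ)‖ = 1 := by simp [Pi.norm_single]
      rw [h2, mul_one] at h1
      exact (norm_nonneg _).trans h1
    have h1 : f1 p = (W p (u p)).1 i * pd ey ψ (lift γ (pos p)) -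
        (W p (u p)).2 * pd (ex i) ψ (lift γ (pos p)) := by
      simp only [hf1]
      rw [dot_rot, dot_ex', dot_ey']
    have h2 : |(W p (u p)).1 i| ≤ ‖W p‖ * |(u p).2| + k p * ‖u p‖ := by
      have e3 : u p = ((u p).1, 0) + (u p).2 • (ey : Z n) := by
        unfold ey
        apply Prod.ext
        · simp
        · simp
      have e4 : W p (u p) = W p ((u p).1, 0) + (u p).2 • W p ey := by
        conv_lhs => rw [e3]
        rw [map_add, map_smul]
      have e5 : |(W p (u p)).1 i| ≤ ‖(W p ((u p).1, 0)).1‖ + |(u p).2| * ‖W p ey‖ := by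
        rw [e4]
        have e6 : (W p ((u p).1, 0) + (u p).2 • W p ey).1 i =
            (W p ((u p).1, 0)).1 i + (u p).2 * (W p ey).1 i := by simp
        rw [e6]
        have e61 : |(W p ((u p).1, 0)).1 i| ≤ ‖(W p ((u p).1, 0)).1‖ :=
          norm_le_pi_norm (W p ((u p).1, 0)).1 i
        have e62 : |(W p ey).1 i| ≤ ‖W p ey‖ :=
          (norm_le_pi_norm (W p ey).1 i).trans (norm_fst_le (W p ey))
        refine (abs_add_le _ _).trans (add_le_add e61 ?_)
        rw [abs_mul]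
        exact mul_le_mul_of_nonneg_left e62 (abs_nonneg _)
      have e7 : ‖W p ey‖ ≤ ‖W p‖ := by
        refine ((W p).le_opNorm _).trans ?_
        calc ‖W p‖ * ‖(ey : Z n)‖ ≤ ‖W p‖ * 1 :=
              mul_le_mul_of_nonneg_left norm_ey_le (norm_nonneg _)
          _ = ‖W p‖ := mul_one _
      have e8 : ‖(W p ((u p).1, 0)).1‖ ≤ k p * ‖u p‖ :=
        (hp3 (u p).1).trans (mul_le_mul_of_nonneg_left (norm_fst_le (u p)) hk0)
      have e9 : |(u p).2| * ‖W p ey‖ ≤ |(u p).2| * ‖W p‖ :=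
        mul_le_mul_of_nonneg_left e7 (abs_nonneg _)
      linarith
    have h3 : |(W p (u p)).2| ≤ ‖W p‖ * ‖u p‖ :=
      (norm_snd_le (W p (u p))).trans ((W p).le_opNorm _)
    set Q1 := ‖W p‖ * |(u p).2| + k p * ‖u p‖ with hQ1
    set Q2 := ‖W p‖ * ‖u p‖ with hQ2
    have hQ1p : 0 ≤ Q1 := (abs_nonneg _).trans h2
    have hQ2p : 0 ≤ Q2 := (abs_nonneg _).trans h3
    have h4 : |f1 p| ≤ Q1 * (C * h⁻¹) + Q2 * (C * δ⁻¹) := by
      rw [h1]
      refine (abs_sub _ _).trans ?_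
      rw [abs_mul, abs_mul]
      exact add_le_add (mul_le_mul h2 (p3 _) (abs_nonneg _) hQ1p)
        (mul_le_mul h3 (p4 _) (abs_nonneg _) hQ2p)
    rw [Real.norm_eq_abs]
    have h5 : Q1 * (C * h⁻¹) + Q2 * (C * δ⁻¹) = 1 * (C * (Q1 / h + Q2 / δ)) := by
      rw [div_eq_mul_inv, div_eq_mul_inv]
      ring
    have h6 : 0 ≤ C * (Q1 / h + Q2 / δ) := by positivity
    calc |f1 p| ≤ 1 * (C * (Q1 / h + Q2 / δ)) := by
          rw [← h5]
          exact h4
      _ ≤ N * (C * (Q1 / h + Q2 / δ)) := by gcongr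
      _ = N * C * (Q1 / h + Q2 / δ) := by ring
  have jG1 : IntegrableOn (fun p => N * C * ((‖W p‖ * |(u p).2| + k p * ‖u p‖) / h +
      ‖W p‖ * ‖u p‖ / δ)) (dom n T δ (h / 2) h) :=
    (((jW2.add jku).div_const h).add (jWu.div_const δ)).const_mul (N * C)
  have jG2 : IntegrableOn (fun p => N * C * (‖W p‖ / h ^ 2)) (dom n T δ (h / 2) h) :=
    (jW.div_const _).const_mul (N * C)
  have i1 : IntegrableOn f1 (dom n T δ (h / 2) h) := by
    have hmeas : AEStronglyMeasurable f1 (volume.restrict (dom n T δ (h / 2) h)) := by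
      have m1 : AEStronglyMeasurable (fun p => W p (u p))
          (volume.restrict (dom n T δ (h / 2) h)) :=
        isBoundedBilinearMap_apply.continuous.comp_aestronglyMeasurable (hW.prodMk hu)
      have m2 : AEStronglyMeasurable (fun p => rot i ψ (lift γ (pos p)))
          (volume.restrict (dom n T δ (h / 2) h)) :=
        (hφ.smooth.continuous.comp hposc).aestronglyMeasurable
      exact continuous_dot.comp_aestronglyMeasurable (m1.prodMk m2)
    exact Integrable.mono' jG1 hmeas b1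
  have i2 : IntegrableOn f2 (dom n T δ (h / 2) h) := by
    have hcl : Continuous (lap (rot i ψ)) := by
      apply ContDiff.continuous (𝕜 := ℝ) (n := (⊤ : ℕ∞))
      apply ContDiff.add
      · exact ContDiff.sum fun j _ => contDiff_pd (contDiff_pd hφ.smooth _) _
      · exact contDiff_pd (contDiff_pd hφ.smooth _) _
    have hmeas : AEStronglyMeasurable f2 (volume.restrict (dom n T δ (h / 2) h)) := by
      have m2 : AEStronglyMeasurable (fun p => lap (rot i ψ) (lift γ (pos p)))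
          (volume.restrict (dom n T δ (h / 2) h)) := (hcl.comp hposc).aestronglyMeasurable
      exact continuous_dot.comp_aestronglyMeasurable (hu.prodMk m2)
    have hcc : HasCompactSupport (lap (rot i ψ)) := by
      have h1 : tsupport (lap (rot i ψ)) ⊆ tsupport (rot i ψ) := by
        apply closure_minimal _ (isClosed_tsupport _)
        intro z hz
        by_contra hz'
        apply hz
        have k2 : ∀ v : Z n, pd v (pd v (rot i ψ)) z = 0 := fun v =>
          image_eq_zero_of_notMem_tsupport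
            (fun hc => hz' (tsupport_pd _ v (tsupport_pd (pd v (rot i ψ)) v hc)))
        unfold lap
        rw [Finset.sum_eq_zero fun i _ => k2 _, k2, add_zero]
      exact hφ.compact.of_isClosed_subset (isClosed_tsupport _) h1
    obtain ⟨C', hC'⟩ := hcl.bounded_above_of_compact_support hcc
    have hC'0 : 0 ≤ C' := (norm_nonneg _).trans (hC' 0)
    refine Integrable.mono' (ju.const_mul (N * C')) hmeas
      (Filter.Eventually.of_forall fun p => ?_)
    have h1 := abs_dot_le (u p) (lap (rot i ψ) (lift γ (pos p)))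
    rw [Real.norm_eq_abs]
    calc |f2 p| ≤ N * (‖u p‖ * ‖lap (rot i ψ) (lift γ (pos p))‖) := h1
      _ ≤ N * (‖u p‖ * C') := by
          gcongr
          exact hC' _
      _ = N * C' * ‖u p‖ := by ring
  -- the viscous part
  have e3 : ∫ p in dom n T δ 0 h, f2 p =
      ∫ p in dom n T δ (h / 2) h, lap ψ (lift γ (pos p)) * dot (W p (ex i)) ey := by
    have r1 := L.rot.rotation (fun _ => 1) (lap ψ) continuous_const hlap.1 (ex i) ey
    simp only [one_mul] at r1
    have r2 : ∫ p in dom n T δ 0 h, lap ψ (lift γ (pos p)) * dot (W p (ex i)) ey =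
        ∫ p in dom n T δ (h / 2) h, lap ψ (lift γ (pos p)) * dot (W p (ex i)) ey := by
      apply setIntegral_eq_of_subset_of_forall_sdiff_eq_zero (measurableSet_dom T δ 0 h) hsub
      intro p hp
      rw [hlap.2 _ (hout p hp), zero_mul]
    rw [← r2, r1]
    congr 1
    funext p
    simp only [hf2]
    rw [lap_rot i hψ.smooth, dot_rot]
  have b2 : ‖∫ p in dom n T δ (h / 2) h, lap ψ (lift γ (pos p)) * dot (W p (ex i)) ey‖ ≤
      ∫ p in dom n T δ (h / 2) h, N * C * (‖W p‖ / h ^ 2) := by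
    apply norm_integral_le_of_norm_le jG2
    refine Filter.Eventually.of_forall fun p => ?_
    rw [Real.norm_eq_abs, abs_mul, dot_ey']
    have h3 : |(W p (ex i)).2| ≤ ‖W p‖ := by
      refine (norm_snd_le (W p (ex i))).trans (((W p).le_opNorm _).trans ?_)
      calc ‖W p‖ * ‖(ex i : Z n)‖ ≤ ‖W p‖ * 1 :=
            mul_le_mul_of_nonneg_left (norm_ex_le i) (norm_nonneg _)
        _ = ‖W p‖ := mul_one _
    calc |lap ψ (lift γ (pos p))| * |(W p (ex i)).2| ≤ (N * (C * h⁻¹ ^ 2)) * ‖W p‖ :=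
          mul_le_mul (p5 _) h3 (abs_nonneg _) (by positivity)
      _ = N * C * (‖W p‖ / h ^ 2) := by
          rw [div_eq_mul_inv, inv_pow]
          ring
  have b3 : ‖∫ p in dom n T δ (h / 2) h, f1 p‖ ≤ ∫ p in dom n T δ (h / 2) h,
      N * C * ((‖W p‖ * |(u p).2| + k p * ‖u p‖) / h + ‖W p‖ * ‖u p‖ / δ) :=
    norm_integral_le_of_norm_le jG1 b1
  -- conclusion
  have k2 := hv _ hψ' (sb_nonneg Γ hδ hh)
  have k3 := sb_integral Γ hδ hh
  have l1 : ∫ z in layer n δ 0 h, dot (u0 z) (rot i ψ (lift γ z)) =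
      (∫ p in dom n T δ (h / 2) h, f1 p) - ∫ p in dom n T δ (h / 2) h, f2 p := by
    have l2 : ∫ p in dom n T δ (h / 2) h, (f2 p - f1 p) =
      (∫ p in dom n T δ (h / 2) h, f2 p) - ∫ p in dom n T δ (h / 2) h, f1 p :=
      integral_sub i2 i1
    have l3 : -∫ z in layer n δ 0 h, dot (u0 z) (rot i ψ (lift γ z)) =
      ∫ p in dom n T δ 0 h, (f2 p - f1 p) := hm
    rw [e1, l2] at l3
    linarith
  rw [← e2, e3] at l1
  have l4 : (∫ p in dom n T δ (h / 2) h,
        N * C * ((‖W p‖ * |(u p).2| + k p * ‖u p‖) / h + ‖W p‖ * ‖u p‖ / δ)) +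
      ∫ p in dom n T δ (h / 2) h, N * C * (‖W p‖ / h ^ 2) =
      N * C * ∫ p in dom n T δ (h / 2) h,
        ((‖W p‖ * |(u p).2| + k p * ‖u p‖) / h + ‖W p‖ * ‖u p‖ / δ + ‖W p‖ / h ^ 2) := by
    rw [← integral_add jG1 jG2, ← integral_const_mul]
    congr 1
    funext p
    ring
  have k5 : a * (c0 * (h * δ ^ n)) ≤ N * C * ∫ p in dom n T δ (h / 2) h,
        ((‖W p‖ * |(u p).2| + k p * ‖u p‖) / h + ‖W p‖ * ‖u p‖ / δ + ‖W p‖ / h ^ 2) := by
    rw [← l4]
    rw [Real.norm_eq_abs] at b2 b3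
    calc a * (c0 * (h * δ ^ n)) ≤ a * ∫ z in layer n δ 0 h, ψ (lift γ z) := by gcongr
      _ ≤ ∫ z in layer n δ 0 h, dot (u0 z) (rot i ψ (lift γ z)) := k2
      _ = _ := l1
      _ ≤ |∫ p in dom n T δ (h / 2) h, f1 p| +
          |∫ p in dom n T δ (h / 2) h, lap ψ (lift γ (pos p)) * dot (W p (ex i)) ey| :=
          (le_abs_self _).trans (abs_sub _ _)
      _ ≤ _ := add_le_add b3 b2
  have e8 : c0 / (N * C) * (a * h * δ ^ n) = (a * (c0 * (h * δ ^ n))) / (N * C) := by
    field_simp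
  rw [e8, div_le_iff₀ (by positivity)]
  linarith

theorem hardy_norm {γ : (Fin n → ℝ) → ℝ} {δ h T : ℝ} {u g : ST n → Z n} {u0 uT : Z n → Z n}
    (H : WeakTraj n γ δ h T u g u0 uT) (hh : 0 < h) :
    ∫ p in dom n T δ 0 h, ‖u p‖ ≤ h * ∫ p in dom n T δ 0 h, ‖g p‖ := by
  have h1 := hardyN H hh (N := fun a => ‖a‖) zero_le_one continuous_norm
    (fun a => norm_nonneg _)
    (fun a => by
      have k1 := norm_sq_le a
      nlinarith [sq_nonneg (‖a‖ - 1)]) (fun f y hy hyh hf h2 => by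
      rw [one_mul]
      exact norm_integral_le_integral_norm f)
  rw [mul_one] at h1
  exact h1

/-- bounded vorticity, no block (planar flows) -/
theorem planar (n : ℕ) : ∃ c : ℝ, 0 < c ∧ ∀ (i : Fin n) {Γ : (Fin n → ℝ) → ℝ}
    {δ h T a K : ℝ}, Profile Γ → 0 < T → 0 < h → h ≤ δ → 0 < a → 0 ≤ K →
    ∀ {u g : ST n → Z n} {W : ST n → Z n →L[ℝ] Z n} {u0 : Z n → Z n},
    WeakTraj n (wall Γ δ h) δ h T u g u0 0 → LambTraj n (wall Γ δ h) δ h T u W 0 u0 0 →
    VortGE (wall Γ δ h) δ h i a u0 →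
    (∀ᵐ p : ST n, p ∈ dom n T δ (h / 2) h → ‖W p‖ ≤ K) →
    c * (a * h * δ ^ n) ≤ K * ((∫ p in dom n T δ 0 h, |(g p).2|) +
      h / δ * (∫ p in dom n T δ 0 h, ‖g p‖) + T * δ ^ n / h) := by
  obtain ⟨c, hc, h1⟩ := vort n
  refine ⟨c / 2 ^ n, by positivity, ?_⟩
  intro i Γ δ h T a K hΓ hT hh hhδ ha hK u g W u0 H L hv hb
  have hδ : 0 < δ := hh.trans_le hhδ
  have k0 := h1 i hΓ hT hh hhδ ha L hv
  have hsub : dom n T δ (h / 2) h ⊆ dom n T δ 0 h := dom_mono (by positivity) le_rfl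
  have hms : ∀ᵐ p ∂(volume.restrict (dom n T δ (h / 2) h)), p ∈ dom n T δ (h / 2) h :=
    ae_restrict_mem (measurableSet_dom T δ _ _)
  have hbd : ∀ᵐ p ∂(volume.restrict (dom n T δ (h / 2) h)), p ∈ dom n T δ (h / 2) h →
      ‖W p‖ ≤ K := ae_restrict_of_ae hb
  have ju := L.rot.int_u.mono_set hsub
  have iu2 : IntegrableOn (fun p => |(u p).2|) (dom n T δ 0 h) := by
    refine Integrable.mono' L.rot.int_u ((continuous_snd.comp_aestronglyMeasurable L.rot.meas_u).norm)
      (Filter.Eventually.of_forall fun p => ?_)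
    rw [Real.norm_eq_abs, abs_abs]
    exact norm_snd_le (u p)
  have ju2 := iu2.mono_set hsub
  have jc : IntegrableOn (fun _ : ST n => 1 / h ^ 2) (dom n T δ (h / 2) h) :=
    integrableOn_const (volume_dom_lt T δ _ _).ne
  have jR : IntegrableOn (fun p => K * (|(u p).2| / h + ‖u p‖ / δ + 1 / h ^ 2))
      (dom n T δ (h / 2) h) :=
    (((ju2.div_const h).add (ju.div_const δ)).add jc).const_mul K
  have k1 : ∫ p in dom n T δ (h / 2) h, ((‖W p‖ * |(u p).2| + (0 : ST n → ℝ) p * ‖u p‖) / h +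
        ‖W p‖ * ‖u p‖ / δ + ‖W p‖ / h ^ 2) ≤
      ∫ p in dom n T δ (h / 2) h, K * (|(u p).2| / h + ‖u p‖ / δ + 1 / h ^ 2) := by
    apply integral_mono_of_nonneg _ jR
    · filter_upwards [hms, hbd] with p hp1 hp2
      have hp3 := hp2 hp1
      simp only [Pi.zero_apply, zero_mul, add_zero]
      have e1 : K * (|(u p).2| / h + ‖u p‖ / δ + 1 / h ^ 2) =
          K * |(u p).2| / h + K * ‖u p‖ / δ + K / h ^ 2 := by ring
      rw [e1]
      gcongr
    · refine Filter.Eventually.of_forall fun p => ?_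
      simp only [Pi.zero_apply, zero_mul, add_zero]
      positivity
  have k2 : ∫ p in dom n T δ (h / 2) h, K * (|(u p).2| / h + ‖u p‖ / δ + 1 / h ^ 2) =
      K * ((∫ p in dom n T δ (h / 2) h, |(u p).2|) / h +
        (∫ p in dom n T δ (h / 2) h, ‖u p‖) / δ +
        volume.real (dom n T δ (h / 2) h) * (1 / h ^ 2)) := by
    have j1 := ju2.div_const h
    have j2 := ju.div_const δ
    have q1 := integral_add (j1.add j2) jc
    have q2 := integral_add j1 j2
    simp only [Pi.add_apply] at q1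
    rw [integral_const_mul, q1, q2, integral_div, integral_div, setIntegral_const, smul_eq_mul]
  have k3 : ∫ p in dom n T δ (h / 2) h, |(u p).2| ≤ h * ∫ p in dom n T δ 0 h, |(g p).2| := by
    refine le_trans ?_ (hardy_one H hh)
    exact setIntegral_mono_set iu2 (Filter.Eventually.of_forall fun p => abs_nonneg _)
      (Filter.Eventually.of_forall hsub)
  have k4 : ∫ p in dom n T δ (h / 2) h, ‖u p‖ ≤ h * ∫ p in dom n T δ 0 h, ‖g p‖ := by
    refine le_trans ?_ (hardy_norm H hh)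
    exact setIntegral_mono_set L.rot.int_u (Filter.Eventually.of_forall fun p => norm_nonneg _)
      (Filter.Eventually.of_forall hsub)
  rw [k2, volume_dom hT.le hδ (by linarith)] at k1
  set A := ∫ p in dom n T δ 0 h, |(g p).2| with hA
  set B := ∫ p in dom n T δ 0 h, ‖g p‖ with hB
  set a1 := ∫ p in dom n T δ (h / 2) h, |(u p).2| with ha1
  set a2 := ∫ p in dom n T δ (h / 2) h, ‖u p‖ with ha2
  have hA0 : 0 ≤ A := integral_nonneg fun p => abs_nonneg _
  have hB0 : 0 ≤ B := integral_nonneg fun p => norm_nonneg _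
  have t1 : a1 / h ≤ A := by
    rw [div_le_iff₀ hh]
    linarith
  have t2 : a2 / δ ≤ h / δ * B := by
    rw [div_le_iff₀ hδ]
    calc a2 ≤ h * B := k4
      _ = h / δ * B * δ := by field_simp
  have t3 : T * (2 * δ) ^ n * (h - h / 2) * (1 / h ^ 2) = 2 ^ n / 2 * (T * δ ^ n / h) := by
    rw [mul_pow]
    field_simp
    ring
  have e2 : (1 : ℝ) ≤ 2 ^ n := one_le_pow₀ (by norm_num)
  have hR0 : 0 ≤ T * δ ^ n / h := by positivity
  have k5 : c * (a * h * δ ^ n) ≤ 2 ^ n * (K * (A + h / δ * B + T * δ ^ n / h)) := by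
    refine (k0.trans k1).trans ?_
    rw [t3]
    have q0 : 0 ≤ h / δ * B := by positivity
    have q1 : a1 / h + a2 / δ + 2 ^ n / 2 * (T * δ ^ n / h) ≤
        2 ^ n * (A + h / δ * B + T * δ ^ n / h) := by
      nlinarith [mul_nonneg (sub_nonneg.2 e2) hA0, mul_nonneg (sub_nonneg.2 e2) q0,
        mul_nonneg (sub_nonneg.2 e2) hR0]
    calc K * (a1 / h + a2 / δ + 2 ^ n / 2 * (T * δ ^ n / h)) ≤
          K * (2 ^ n * (A + h / δ * B + T * δ ^ n / h)) := by gcongr
      _ = _ := by ring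
  have e8 : c / 2 ^ n * (a * h * δ ^ n) = (c * (a * h * δ ^ n)) / 2 ^ n := by
    field_simp
  rw [e8, div_le_iff₀ (by positivity)]
  linarith

end Pool.Agent.W5h42.KE
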