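import Pool.Agent.W5h42.KE.Chart

set_option autoImplicit false

/-! The scaled bump function near the curved wall, and its solenoidal field. -/

open MeasureTheory Set

namespace Pool.Agent.W5h42.KE

variable {n : ℕ}

/-- the scaled bump function -/
noncomputable def sb (Γ : (Fin n → ℝ) → ℝ) {δ h : ℝ} (hδ : 0 < δ) (hh : 0 < h) (z : Z n) : ℝ :=
  cb Γ (sc n δ⁻¹ h⁻¹ (inv_ne_zero hδ.ne') (inv_ne_zero hh.ne') z)

theorem sb_test {Γ : (Fin n → ℝ) → ℝ} (hΓ : ContDiff ℝ (⊤ : ℕ∞) Γ) {δ h : ℝ} (hδ : 0 < δ)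
    (hh : 0 < h) : IsTest (box (wall Γ δ h) δ (h / 2) h) (sb Γ hδ hh) := by
  set S := sc n δ⁻¹ h⁻¹ (inv_ne_zero hδ.ne') (inv_ne_zero hh.ne') with hS
  have hc : Continuous (flat Γ) := (flat_contDiff hΓ).continuous
  have hΓc : Continuous Γ := hΓ.continuous
  have hsub : tsupport (sb Γ hδ hh) ⊆
      (fun z => flat Γ (S z)) ⁻¹' (Metric.closedBall (ctr n) (1 / 8)) := by
    apply closure_minimal _ (Metric.isClosed_closedBall.preimage (hc.comp S.continuous))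
    intro w hw
    have h2 : flat Γ (S w) ∈ Function.support (bump n) := hw
    rw [(bump n).support_eq] at h2
    exact Metric.ball_subset_closedBall h2
  refine ⟨(cb_contDiff hΓ).comp S.contDiff, ?_, ?_⟩
  · -- compactness
    set U : Z n → Z n := fun w => S.symm (w.1, w.2 + Γ w.1) with hU
    have hUc : Continuous U := by
      apply S.symm.continuous.comp
      fun_prop
    have hK : IsCompact (U '' (Metric.closedBall (ctr n) (1 / 8))) :=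
      (isCompact_closedBall _ _).image hUc
    refine hK.of_isClosed_subset (isClosed_tsupport _) ?_
    intro z hz
    refine ⟨flat Γ (S z), hsub hz, ?_⟩
    have e1 : ((flat Γ (S z)).1, (flat Γ (S z)).2 + Γ (flat Γ (S z)).1) = S z := by
      unfold flat
      simp
    rw [hU]
    simp only
    rw [e1, ContinuousLinearEquiv.symm_apply_apply]
  · intro z hz
    obtain ⟨h1, h2⟩ := ctr_fst (hsub hz)
    have h1' : ‖δ⁻¹ • z.1‖ ≤ 1 / 8 := h1
    have h2' : |h⁻¹ * z.2 - Γ (δ⁻¹ • z.1) - 3 / 4| ≤ 1 / 8 := h2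
    rw [norm_smul, norm_inv, Real.norm_eq_abs, abs_of_pos hδ] at h1'
    rw [abs_le] at h2'
    have e2 : δ * (δ⁻¹ * ‖z.1‖) = ‖z.1‖ := by field_simp
    have e1 : h * (h⁻¹ * z.2 - Γ (δ⁻¹ • z.1)) = z.2 - wall Γ δ h z.1 := by
      unfold wall
      field_simp
    refine ⟨?_, ?_, ?_⟩
    · change z.1 ∈ Metric.ball (0 : Fin n → ℝ) δ
      rw [Metric.mem_ball, dist_zero_right, ← e2]
      nlinarith
    · change h / 2 < z.2 - wall Γ δ h z.1
      rw [← e1]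
      nlinarith
    · change z.2 - wall Γ δ h z.1 < h
      rw [← e1]
      nlinarith

theorem sb_nonneg (Γ : (Fin n → ℝ) → ℝ) {δ h : ℝ} (hδ : 0 < δ) (hh : 0 < h) (z : Z n) :
    0 ≤ sb Γ hδ hh z := (bump n).nonneg

theorem sb_lift (Γ : (Fin n → ℝ) → ℝ) {δ h : ℝ} (hδ : 0 < δ) (hh : 0 < h) (z : Z n) :
    sb Γ hδ hh (lift (wall Γ δ h) z) = bump n (δ⁻¹ • z.1, h⁻¹ * z.2) := by
  unfold sb cb flat lift wall
  rw [sc_apply]
  simp only
  congr 2
  field_simp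
  ring

theorem sb_integral (Γ : (Fin n → ℝ) → ℝ) {δ h : ℝ} (hδ : 0 < δ) (hh : 0 < h) :
    (1 / 8) ^ (n + 1) * (h * δ ^ n) ≤
      ∫ z in layer n δ 0 h, sb Γ hδ hh (lift (wall Γ δ h) z) := by
  simp only [sb_lift]
  have hcont : Continuous fun z : Z n => bump n (δ⁻¹ • z.1, h⁻¹ * z.2) := by
    apply (bump n).continuous.comp
    fun_prop
  have hcs : HasCompactSupport fun z : Z n => bump n (δ⁻¹ • z.1, h⁻¹ * z.2) :=
    (bump n).hasCompactSupport.comp_homeomorph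
      (sc n δ⁻¹ h⁻¹ (inv_ne_zero hδ.ne') (inv_ne_zero hh.ne')).toHomeomorph
  have hi : Integrable fun z : Z n => bump n (δ⁻¹ • z.1, h⁻¹ * z.2) :=
    hcont.integrable_of_hasCompactSupport hcs
  set B : Set (Z n) := Metric.ball (0 : Fin n → ℝ) (δ / 16) ×ˢ Ioo (11 / 16 * h) (13 / 16 * h)
    with hB
  have hBm : MeasurableSet B := Metric.isOpen_ball.measurableSet.prod measurableSet_Ioo
  have hsub : B ⊆ layer n δ 0 h := by
    apply prod_mono
    · exact Metric.ball_subset_ball (by linarith)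
    · exact Ioo_subset_Ioo (by positivity) (by linarith)
  have hv : volume B = ENNReal.ofReal ((2 * (δ / 16)) ^ n) *
      ENNReal.ofReal (13 / 16 * h - 11 / 16 * h) := by
    rw [hB, Measure.volume_eq_prod, Measure.prod_prod, Real.volume_Ioo,
      Real.volume_pi_ball _ (by positivity : 0 < δ / 16), Fintype.card_fin]
  have hv' : volume.real B = (1 / 8) ^ (n + 1) * (h * δ ^ n) := by
    rw [Measure.real, hv, ENNReal.toReal_mul, ENNReal.toReal_ofReal (by positivity),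
      ENNReal.toReal_ofReal (by linarith), pow_succ]
    have e1 : 2 * (δ / 16) = 1 / 8 * δ := by ring
    rw [e1, mul_pow]
    ring
  have hfin : volume B ≠ ⊤ := by
    rw [hv]
    exact (ENNReal.mul_lt_top ENNReal.ofReal_lt_top ENNReal.ofReal_lt_top).ne
  calc (1 / 8) ^ (n + 1) * (h * δ ^ n) = ∫ _ in B, (1 : ℝ) := by
        rw [setIntegral_const, smul_eq_mul, mul_one, hv']
    _ ≤ ∫ z in B, bump n (δ⁻¹ • z.1, h⁻¹ * z.2) := by
        apply setIntegral_mono_on (integrableOn_const hfin) hi.integrableOn hBm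
        intro z hz
        have h1 : bump n (δ⁻¹ • z.1, h⁻¹ * z.2) = 1 := by
          apply (bump n).one_of_mem_closedBall
          rw [Metric.mem_closedBall, Prod.dist_eq, max_le_iff]
          have hz1 : ‖z.1‖ < δ / 16 := by
            have := hz.1
            rwa [Metric.mem_ball, dist_zero_right] at this
          have hz2 := hz.2
          constructor
          · change dist (δ⁻¹ • z.1) 0 ≤ 1 / 16
            rw [dist_zero_right, norm_smul, norm_inv, Real.norm_eq_abs, abs_of_pos hδ,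
              inv_mul_le_iff₀ hδ]
            linarith
          · change dist (h⁻¹ * z.2) (3 / 4) ≤ 1 / 16
            rw [Real.dist_eq, abs_le]
            have e1 : h⁻¹ * (11 / 16 * h) = 11 / 16 := by field_simp
            have e2 : h⁻¹ * (13 / 16 * h) = 13 / 16 := by field_simp
            have k1 : h⁻¹ * (11 / 16 * h) ≤ h⁻¹ * z.2 :=
              mul_le_mul_of_nonneg_left hz2.1.le (inv_nonneg.2 hh.le)
            have k2 : h⁻¹ * z.2 ≤ h⁻¹ * (13 / 16 * h) :=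
              mul_le_mul_of_nonneg_left hz2.2.le (inv_nonneg.2 hh.le)
            rw [e1] at k1
            rw [e2] at k2
            constructor <;> linarith
        rw [h1]
    _ ≤ ∫ z in layer n δ 0 h, bump n (δ⁻¹ • z.1, h⁻¹ * z.2) :=
        setIntegral_mono_set hi.integrableOn
          (Filter.Eventually.of_forall fun z => (bump n).nonneg)
          (Filter.Eventually.of_forall hsub)

/-- the unit vectors -/
def Bas (n : ℕ) : Set (Z n) := insert ey (range ex)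

theorem ey_mem : (ey : Z n) ∈ Bas n := mem_insert _ _

theorem ex_mem (i : Fin n) : (ex i : Z n) ∈ Bas n := mem_insert_of_mem _ (mem_range_self i)

/-- `rot` commutes with derivatives -/
theorem pd_rot (i : Fin n) {ψ : Z n → ℝ} (hf : ContDiff ℝ (⊤ : ℕ∞) ψ) (v : Z n) :
    pd v (rot i ψ) = rot i (pd v ψ) := by
  funext z
  rw [hasFDerivAt_rot i hf, pd_comm hf v ey, pd_comm hf v (ex i)]
  rfl

theorem norm_rot_le (i : Fin n) (ψ : Z n → ℝ) (z : Z n) {M : ℝ} (hM : 0 ≤ M)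
    (h1 : |pd ey ψ z| ≤ M) (h2 : |pd (ex i) ψ z| ≤ M) : ‖rot i ψ z‖ ≤ M := by
  unfold rot
  rw [Prod.norm_def, max_le_iff]
  constructor
  · rw [pi_norm_le_iff_of_nonneg hM]
    intro j
    by_cases hj : j = i
    · subst hj
      simpa using h1
    · simp only [Pi.single_eq_of_ne hj, norm_zero]
      exact hM
  · simpa using h2

theorem norm_lap_le {F : Type} [NormedAddCommGroup F] [NormedSpace ℝ F] {f : Z n → F} {z : Z n}
    {M : ℝ} (h1 : ∀ a ∈ Bas n, ‖pd a (pd a f) z‖ ≤ M) : ‖lap f z‖ ≤ (n + 1) * M := by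
  unfold lap
  calc ‖∑ i, pd (ex i) (pd (ex i) f) z + pd ey (pd ey f) z‖
      ≤ ‖∑ i, pd (ex i) (pd (ex i) f) z‖ + ‖pd ey (pd ey f) z‖ := norm_add_le _ _
    _ ≤ ∑ i : Fin n, ‖pd (ex i) (pd (ex i) f) z‖ + ‖pd ey (pd ey f) z‖ := by
        gcongr
        exact norm_sum_le _ _
    _ ≤ ∑ _i : Fin n, M + M := by
        gcongr with i
        · exact h1 _ (ex_mem i)
        · exact h1 _ ey_mem
    _ = (n + 1) * M := by
        rw [Finset.sum_const, Finset.card_univ, Fintype.card_fin, nsmul_eq_mul]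
        ring

theorem sum_single' (b : Fin n → ℝ) (i : Fin n) (c : ℝ) :
    ∑ x, b x * (Pi.single i c : Fin n → ℝ) x = b i * c := by
  rw [Finset.sum_eq_single i]
  · rw [Pi.single_eq_same]
  · intro j _ hj
    rw [Pi.single_eq_of_ne hj, mul_zero]
  · intro hi
    exact absurd (Finset.mem_univ i) hi

/-- the bounds for the scaled bump function, in terms of the bounds before scaling -/
theorem scaled_pd {f : Z n → ℝ} (hf : ContDiff ℝ (⊤ : ℕ∞) f) {C δ h : ℝ} (hδ : 0 < δ)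
    (hh : 0 < h) (hC : ∀ z, ∀ k ≤ 3, ‖iteratedFDeriv ℝ k f z‖ ≤ C) :
    let S := sc n δ⁻¹ h⁻¹ (inv_ne_zero hδ.ne') (inv_ne_zero hh.ne')
    (∀ w z, |pd w (fun z => f (S z)) z| ≤ C * ‖S w‖) ∧
    (∀ v w z, |pd v (pd w (fun z => f (S z))) z| ≤ C * (‖S v‖ * ‖S w‖)) ∧
    ∀ v w a z, |pd v (pd w (pd a (fun z => f (S z)))) z| ≤ C * (‖S v‖ * ‖S w‖ * ‖S a‖) := by
  intro S
  have e1 : ∀ g : Z n → ℝ, ContDiff ℝ (⊤ : ℕ∞) g → ∀ w, pd w (fun z => g (S z)) =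
      fun z => pd (S w) g (S z) := by
    intro g hg w
    funext z
    exact pd_comp (inv_ne_zero hδ.ne') (inv_ne_zero hh.ne') (hg.differentiable (by simp)) w z
  refine ⟨fun w z => ?_, fun v w z => ?_, fun v w a z => ?_⟩
  · rw [e1 f hf]
    exact abs_pd1 hf _ _ (hC _)
  · rw [e1 f hf, e1 _ (contDiff_pd hf _)]
    exact abs_pd2 hf _ _ _ (hC _)
  · rw [e1 f hf, e1 _ (contDiff_pd hf _), e1 _ (contDiff_pd (contDiff_pd hf _) _)]
    exact abs_pd3 hf _ _ _ _ (hC _)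

theorem norm_sc_le {δ h : ℝ} (hδ : 0 < δ) (hh : 0 < h) (v : Z n) :
    ‖sc n δ⁻¹ h⁻¹ (inv_ne_zero hδ.ne') (inv_ne_zero hh.ne') v‖ ≤
      δ⁻¹ * ‖v‖ + h⁻¹ * |v.2| := by
  rw [sc_apply, Prod.norm_def, max_le_iff]
  constructor
  · change ‖δ⁻¹ • v.1‖ ≤ _
    rw [norm_smul, norm_inv, Real.norm_eq_abs, abs_of_pos hδ]
    have h1 : δ⁻¹ * ‖v.1‖ ≤ δ⁻¹ * ‖v‖ :=
      mul_le_mul_of_nonneg_left (norm_fst_le v) (inv_nonneg.2 hδ.le)
    have h2 : 0 ≤ h⁻¹ * |v.2| := by positivity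
    linarith
  · change |h⁻¹ * v.2| ≤ _
    rw [abs_mul, abs_of_pos (inv_pos.2 hh)]
    have h2 : 0 ≤ δ⁻¹ * ‖v‖ := by positivity
    linarith

theorem norm_sc_ey {δ h : ℝ} (hδ : 0 < δ) (hh : 0 < h) :
    ‖sc n δ⁻¹ h⁻¹ (inv_ne_zero hδ.ne') (inv_ne_zero hh.ne') (ey : Z n)‖ ≤ h⁻¹ := by
  rw [sc_ey, norm_smul, norm_inv, Real.norm_eq_abs, abs_of_pos hh]
  have h1 : ‖(ey : Z n)‖ ≤ 1 := by
    unfold ey
    rw [Prod.norm_def]
    simp
  calc h⁻¹ * ‖(ey : Z n)‖ ≤ h⁻¹ * 1 := mul_le_mul_of_nonneg_left h1 (inv_nonneg.2 hh.le)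
    _ = h⁻¹ := mul_one _

theorem norm_sc_ex {δ h : ℝ} (hδ : 0 < δ) (hh : 0 < h) (i : Fin n) :
    ‖sc n δ⁻¹ h⁻¹ (inv_ne_zero hδ.ne') (inv_ne_zero hh.ne') (ex i : Z n)‖ ≤ δ⁻¹ := by
  rw [sc_ex, norm_smul, norm_inv, Real.norm_eq_abs, abs_of_pos hδ]
  have h1 : ‖(ex i : Z n)‖ ≤ 1 := by
    unfold ex
    rw [Prod.norm_def]
    simp [Pi.norm_single]
  calc δ⁻¹ * ‖(ex i : Z n)‖ ≤ δ⁻¹ * 1 := mul_le_mul_of_nonneg_left h1 (inv_nonneg.2 hδ.le)
    _ = δ⁻¹ := mul_one _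

/-- the bounds for the solenoidal field of the scaled bump function -/
theorem sb_bounds (n : ℕ) : ∃ C : ℝ, 1 ≤ C ∧ ∀ Γ : (Fin n → ℝ) → ℝ, Profile Γ →
    ∀ {δ h : ℝ} (hδ : 0 < δ) (hh : 0 < h), h ≤ δ → ∀ i : Fin n,
      (∀ v z, |dot v (pd v (rot i (sb Γ hδ hh)) z)| ≤
        C * h⁻¹ ^ 2 * (Real.sqrt (dot v v) * |v.2|) + 3 * C * (h * δ)⁻¹ * dot v v) ∧
      (∀ v z, |dot v (lap (rot i (sb Γ hδ hh)) z)| ≤
        (n + 1) ^ 2 * C * h⁻¹ ^ 3 * Real.sqrt (dot v v)) ∧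
      (∀ z, |pd ey (sb Γ hδ hh) z| ≤ C * h⁻¹) ∧
      (∀ z, |pd (ex i) (sb Γ hδ hh) z| ≤ C * δ⁻¹) ∧
      (∀ z, |lap (sb Γ hδ hh) z| ≤ (n + 1) * (C * h⁻¹ ^ 2)) := by
  obtain ⟨C, hC1, hC⟩ := cb_bound n
  refine ⟨C, hC1, fun Γ hΓ {δ h} hδ hh hhδ i => ?_⟩
  have hC0 : 0 ≤ C := le_trans zero_le_one hC1
  obtain ⟨b1, b2, b3⟩ := scaled_pd (cb_contDiff hΓ.smooth) hδ hh (hC Γ hΓ)
  have hsb : ContDiff ℝ (⊤ : ℕ∞) (sb Γ hδ hh) := (sb_test hΓ.smooth hδ hh).smooth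
  set S := sc n δ⁻¹ h⁻¹ (inv_ne_zero hδ.ne') (inv_ne_zero hh.ne') with hS
  have b1' : ∀ w z, |pd w (sb Γ hδ hh) z| ≤ C * ‖S w‖ := b1
  have b2' : ∀ v w z, |pd v (pd w (sb Γ hδ hh)) z| ≤ C * (‖S v‖ * ‖S w‖) := b2
  have b3' : ∀ v w a z, |pd v (pd w (pd a (sb Γ hδ hh))) z| ≤ C * (‖S v‖ * ‖S w‖ * ‖S a‖) := b3
  have hi0 : 0 < h⁻¹ := inv_pos.2 hh
  have hd0 : 0 < δ⁻¹ := inv_pos.2 hδ
  have hdh : δ⁻¹ ≤ h⁻¹ := inv_anti₀ hh hhδ
  have hbas : ∀ a ∈ Bas n, ‖S a‖ ≤ h⁻¹ := by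
    intro a ha
    rcases ha with rfl | ⟨j, rfl⟩
    · exact norm_sc_ey hδ hh
    · exact (norm_sc_ex hδ hh j).trans hdh
  refine ⟨fun v z => ?_, fun v z => ?_, fun z => ?_, fun z => ?_, fun z => ?_⟩
  · rw [hasFDerivAt_rot i hsb]
    set X := pd v (pd ey (sb Γ hδ hh)) z with hX
    set Y := pd v (pd (ex i) (sb Γ hδ hh)) z with hY
    have e1 : dot v ((Pi.single i X, -Y) : Z n) = v.1 i * X - v.2 * Y := by
      unfold dot
      simp only
      rw [sum_single']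
      ring
    rw [e1]
    have hXb : |X| ≤ C * ((δ⁻¹ * ‖v‖ + h⁻¹ * |v.2|) * h⁻¹) := by
      refine (b2' v ey z).trans ?_
      have k1 := norm_sc_le hδ hh v
      have k2 := norm_sc_ey (n := n) hδ hh
      gcongr
    have hYb : |Y| ≤ C * ((δ⁻¹ * ‖v‖ + h⁻¹ * |v.2|) * δ⁻¹) := by
      refine (b2' v (ex i) z).trans ?_
      have k1 := norm_sc_le hδ hh v
      have k2 := norm_sc_ex hδ hh i
      gcongr
    set s := Real.sqrt (dot v v) with hs
    have hs0 : 0 ≤ s := Real.sqrt_nonneg _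
    have hs2 : s ^ 2 = dot v v := Real.sq_sqrt (dot_nonneg v)
    have hvs : ‖v‖ ≤ s := norm_le_sqrt v
    have hv1 : |v.1 i| ≤ s := (norm_le_pi_norm v.1 i).trans ((norm_fst_le v).trans hvs)
    have hv2 : |v.2| ≤ s := (norm_snd_le v).trans hvs
    have hw0 : 0 ≤ |v.2| := abs_nonneg _
    have k1 : |v.1 i * X - v.2 * Y| ≤ |v.1 i| * |X| + |v.2| * |Y| := by
      rw [← abs_mul, ← abs_mul]
      exact abs_sub _ _
    have k2 : |v.1 i| * |X| ≤ s * (C * ((δ⁻¹ * s + h⁻¹ * |v.2|) * h⁻¹)) := by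
      refine mul_le_mul hv1 (hXb.trans ?_) (abs_nonneg _) hs0
      gcongr
    have k3 : |v.2| * |Y| ≤ |v.2| * (C * ((δ⁻¹ * s + h⁻¹ * |v.2|) * δ⁻¹)) := by
      refine mul_le_mul_of_nonneg_left (hYb.trans ?_) hw0
      gcongr
    have k4 : |v.2| * (C * ((δ⁻¹ * s + h⁻¹ * |v.2|) * δ⁻¹)) ≤
        s * (C * ((h⁻¹ * s + h⁻¹ * s) * δ⁻¹)) := by
      gcongr
    have e2 : (h * δ)⁻¹ = h⁻¹ * δ⁻¹ := mul_inv _ _
    rw [e2, ← hs2]
    calc |v.1 i * X - v.2 * Y| ≤ |v.1 i| * |X| + |v.2| * |Y| := k1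
      _ ≤ s * (C * ((δ⁻¹ * s + h⁻¹ * |v.2|) * h⁻¹)) +
          s * (C * ((h⁻¹ * s + h⁻¹ * s) * δ⁻¹)) := add_le_add k2 (k3.trans k4)
      _ = C * h⁻¹ ^ 2 * (s * |v.2|) + 3 * C * (h⁻¹ * δ⁻¹) * s ^ 2 := by ring
  · have h1 : ‖lap (rot i (sb Γ hδ hh)) z‖ ≤ (n + 1) * (C * h⁻¹ ^ 3) := by
      apply norm_lap_le
      intro a ha
      rw [pd_rot i hsb, pd_rot i (contDiff_pd hsb a)]
      have k0 : ∀ w ∈ Bas n, |pd w (pd a (pd a (sb Γ hδ hh))) z| ≤ C * h⁻¹ ^ 3 := by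
        intro w hw
        refine (b3' w a a z).trans ?_
        have k1 := hbas w hw
        have k2 := hbas a ha
        calc C * (‖S w‖ * ‖S a‖ * ‖S a‖) ≤ C * (h⁻¹ * h⁻¹ * h⁻¹) := by gcongr
          _ = C * h⁻¹ ^ 3 := by ring
      exact norm_rot_le i _ z (by positivity) (k0 _ ey_mem) (k0 _ (ex_mem i))
    calc |dot v (lap (rot i (sb Γ hδ hh)) z)| ≤
          (n + 1) * (‖v‖ * ‖lap (rot i (sb Γ hδ hh)) z‖) := abs_dot_le _ _
      _ ≤ (n + 1) * (Real.sqrt (dot v v) * ((n + 1) * (C * h⁻¹ ^ 3))) := by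
          gcongr
          exact norm_le_sqrt v
      _ = _ := by ring
  · refine (b1' ey z).trans ?_
    have k2 := norm_sc_ey (n := n) hδ hh
    gcongr
  · refine (b1' (ex i) z).trans ?_
    have k2 := norm_sc_ex hδ hh i
    gcongr
  · apply norm_lap_le (F := ℝ)
    intro a ha
    rw [Real.norm_eq_abs]
    refine (b2' a a z).trans ?_
    have k2 := hbas a ha
    calc C * (‖S a‖ * ‖S a‖) ≤ C * (h⁻¹ * h⁻¹) := by gcongr
      _ = C * h⁻¹ ^ 2 := by ring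

end Pool.Agent.W5h42.KE
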